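import Pool.Agent.Lib.helper31.RealWStar

set_option autoImplicit false

namespace Pool.Agent.Results.MP_64e6b8_an.RealIndex

open Pool.Agent.Lib.helper31.NumIdx Pool.Agent.Lib.helper31.RealCStar
  Pool.Agent.Lib.helper31.RealWStar

/-- `E` is a real Banach space whose dual is isometrically isomorphic to `X` -/
def IsPredual (X E : Type) [NormedAddCommGroup X] [NormedSpace ℝ X] [NormedAddCommGroup E]
    [NormedSpace ℝ E] : Prop :=
  CompleteSpace E ∧ Nonempty (X ≃ₗᵢ[ℝ] (E →L[ℝ] ℝ))

/-- the space and all its isometric preduals have numerical index `c` -/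
def IndexIs (X : Type) [NormedAddCommGroup X] [NormedSpace ℝ X] (c : ℝ) : Prop :=
  numIndex ℝ X = c ∧
    ∀ (E : Type) [NormedAddCommGroup E] [NormedSpace ℝ E], IsPredual X E → numIndex ℝ E = c

/-- A nonzero real C*-algebra and all its isometric preduals have numerical index one when the
involution is the identity, and numerical index zero otherwise. -/
theorem result (B : Type) [NonUnitalCStarAlgebra B] (A : Submodule ℝ B)
    (hcl : IsClosed (A : Set B)) (hmul : ∀ a ∈ A, ∀ b ∈ A, a * b ∈ A)
    (hstar : ∀ a ∈ A, star a ∈ A) (hne : A ≠ ⊥) :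
    ((∀ a ∈ A, star a = a) → IndexIs A 1) ∧ ((∃ a ∈ A, star a ≠ a) → IndexIs A 0) := by
  have hA : Nontrivial A := Submodule.nontrivial_iff_ne_bot.2 hne
  constructor
  · intro hsa
    obtain ⟨S, s1, s2, s3⟩ := characters A hmul hsa
    refine ⟨index_one (adp S s1 s2 s3), ?_⟩
    rintro E _ _ ⟨-, ⟨Φ⟩⟩
    have hE : Nontrivial E := by
      by_contra h
      rw [not_nontrivial_iff_subsingleton] at h
      obtain ⟨a, b, hab⟩ := exists_pair_ne A
      apply hab
      apply Φ.injective
      ext e
      rw [Subsingleton.elim e 0, map_zero, map_zero]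
    refine index_one_predual
      ((fun χ : A →ₗ[ℝ] ℝ => χ.comp Φ.symm.toLinearEquiv.toLinearMap) '' S) (fun a b => ?_) ?_
      fun a => ?_
    · obtain ⟨c, hc⟩ := s1 (Φ.symm a) (Φ.symm b)
      refine ⟨Φ c, ?_⟩
      rintro _ ⟨χ, hχ, rfl⟩
      simpa using hc χ hχ
    · rintro _ ⟨χ, hχ, rfl⟩ a
      simpa using s2 χ hχ (Φ.symm a)
    · obtain ⟨χ, hχ, h⟩ := s3 (Φ.symm a)
      exact ⟨_, ⟨χ, hχ, rfl⟩, by simpa using h⟩
  · rintro ⟨a, ha, hane⟩
    let ι : B →ₗᵢ[ℝ] Unitization ℂ B :=
      { toFun := fun b => (b : Unitization ℂ B)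
        map_add' := fun x y => Unitization.inr_add ℂ x y
        map_smul' := fun r x => Unitization.inr_smul ℂ r x
        norm_map' := fun b => Unitization.norm_inr (𝕜 := ℂ) b }
    have ιmul : ∀ x y, ι (x * y) = ι x * ι y := fun x y => Unitization.inr_mul ℂ x y
    have ιstar : ∀ x, ι (star x) = star (ι x) := fun x => Unitization.inr_star x
    constructor
    · set b := a - star a with hb
      have hbA : b ∈ A := A.sub_mem ha (hstar a ha)
      have hbs : star b = -b := by rw [hb, star_sub, star_star, neg_sub]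
      let T : A →L[ℝ] A := LinearMap.mkContinuous
        { toFun := fun x => ⟨b * x, hmul b hbA x x.2⟩
          map_add' := fun x y => Subtype.ext (by simp [mul_add])
          map_smul' := fun r x => Subtype.ext (by
            change b * ((r : ℂ) • (x : B)) = (r : ℂ) • (b * x)
            exact mul_smul_comm _ _ _) } ‖b‖ fun x => norm_mul_le b (x : B)
      refine index_zero T (fun h0 => hane ?_) (‖b‖ ^ 2) fun t x => ?_
      · have h1' := congrArg Subtype.val (DFunLike.congr_fun h0 (⟨b, hbA⟩ : A))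
        have h1 : b * b = 0 := h1'
        have h2 := CStarRing.norm_star_mul_self (x := b)
        rw [hbs, neg_mul, h1, neg_zero, norm_zero] at h2
        have : b = 0 := norm_eq_zero.1 (mul_self_eq_zero.1 h2.symm)
        exact (sub_eq_zero.1 this).symm
      · have := skew_left (ι b) (by rw [← ιstar, hbs, map_neg]) t (ι x)
        rw [← ιmul, ← map_smul, ← map_add, ι.norm_map, ι.norm_map, ι.norm_map] at this
        exact this
    · rintro E _ _ ⟨hE, ⟨Φ⟩⟩
      refine predual_zero (A := A.map ι.toLinearMap) ?_ ?_ ?_ 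
        ((LinearIsometryEquiv.ofSurjective (ι.submoduleMap A) (by
          rintro ⟨_, x, hx, rfl⟩
          exact ⟨⟨x, hx⟩, rfl⟩)).symm.trans Φ)
        ⟨ι a, ⟨a, ha, rfl⟩, fun h => hane (ι.injective (by rw [ιstar]; exact h))⟩
      · exact ι.isometry.isClosedEmbedding.isClosedMap _ hcl
      · rintro _ ⟨x, hx, rfl⟩ _ ⟨y, hy, rfl⟩
        exact ⟨x * y, hmul x hx y hy, ιmul x y⟩
      · rintro _ ⟨x, hx, rfl⟩
        exact ⟨star x, hstar x hx, ιstar x⟩

end Pool.Agent.Results.MP_64e6b8_an.RealIndex
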